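import Pool.Agent.K6.H68.TR.Primes
import Pool.Agent.HP778.Count

/-!
# Counting tuples of integers whose logarithms are dependent modulo a finite dimensional space
-/

set_option autoImplicit false

namespace Pool.Agent.K6.H68.TR

open Module Finset
open Pool.Agent.H301R2.SSE (QB mem_QB Lt Lt_rep Lt_mul Lt_alg Lt_log Lt_one)
open Pool.Agent.W254.HP (hyperplane' opt_indep)

open Classical in
/-- the number of integers up to `N` with logarithm in `W` -/
theorem count_log (W : Submodule QB ℂ) [FiniteDimensional QB W] (h1 : (1 : ℂ) ∈ W) (N : ℕ) :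
    ((Finset.Icc 1 N).filter fun n : ℕ => ((Real.log n : ℝ) : ℂ) ∈ W).card ≤
      (Nat.log 2 N + 1) ^ (finrank QB W - 1) := by
  rcases Nat.eq_zero_or_pos N with hN | hN
  · subst hN
    simp
  refine Pool.Agent.HP778.count (N := N) _ (fun n hn => ?_) 1 hN ?_
  · exact Finset.mem_Icc.mp (Finset.mem_filter.mp hn).1
  · intro m n hn hli
    have h2 : LinearIndependent ℚ (fun i => ((Real.log (n i) : ℝ) : ℂ)) := by
      simpa using hli
    have h3 := opt_indep (fun i => ((Real.log (n i) : ℝ) : ℂ)) (fun i => exp_log_alg_nat (by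
      have := Finset.mem_Icc.mp (Finset.mem_filter.mp (hn i)).1
      omega)) h2
    have h4 : LinearIndependent QB (fun o : Option (Fin m) =>
        (⟨o.elim 1 (fun i => ((Real.log (n i) : ℝ) : ℂ)), by
          cases o with
          | none => exact h1
          | some i => exact (Finset.mem_filter.mp (hn i)).2⟩ : W)) :=
      LinearIndependent.of_comp W.subtype h3
    have h5 := h4.fintype_card_le_finrank
    rw [Fintype.card_option, Fintype.card_fin] at h5
    omega

open Classical in
/-- the number of tuples of integers up to `N` whose logarithms are dependent modulo `W` -/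
theorem count_dep (W : Submodule QB ℂ) [FiniteDimensional QB W] (h1 : (1 : ℂ) ∈ W) (k N : ℕ) :
    ((Fintype.piFinset fun _ : Fin (k + 1) => Finset.Icc 1 N).filter fun n =>
      ¬ LinearIndependent QB (fun i => W.mkQ ((Real.log (n i : ℕ) : ℝ) : ℂ))).card ≤
      (k + 1) * (N ^ k * (Nat.log 2 N + 1) ^ (finrank QB W - 1 + k)) := by
  let lg : ℕ → ℂ := fun n => ((Real.log n : ℝ) : ℂ)
  have hW0 : 0 < finrank QB W := by
    rw [Module.finrank_pos_iff]
    exact ⟨⟨⟨1, h1⟩, 0, fun h => one_ne_zero (congrArg (fun z : W => (z : ℂ)) h)⟩⟩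
  let P : Finset (Fin (k + 1) → ℕ) := Fintype.piFinset fun _ : Fin (k + 1) => Finset.Icc 1 N
  let U : (Fin k → ℕ) → Submodule QB ℂ := fun a => W ⊔ Submodule.span QB (Set.range (lg ∘ a))
  have hSf : ∀ a : Fin k → ℕ, FiniteDimensional QB (Submodule.span QB (Set.range (lg ∘ a))) :=
    fun a => FiniteDimensional.span_of_finite QB (Set.finite_range _)
  have hUf : ∀ a, FiniteDimensional QB (U a) := fun a => by
    have := hSf a
    exact Submodule.finiteDimensional_sup _ _
  have hUr : ∀ a, finrank QB (U a) ≤ finrank QB W + k := fun a => by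
    have := hSf a
    have h2 : finrank QB (Submodule.span QB (Set.range (lg ∘ a))) ≤ k := by
      have := finrank_range_le_card (R := QB) (lg ∘ a)
      rwa [Fintype.card_fin] at this
    exact (Submodule.finrank_add_le_finrank_add_finrank _ _).trans (Nat.add_le_add_left h2 _)
  let B : Fin (k + 1) → Finset (Fin (k + 1) → ℕ) := fun j => P.filter fun n =>
    lg (n j) ∈ U (j.removeNth n)
  have hB : ∀ j, (B j).card ≤ N ^ k * (Nat.log 2 N + 1) ^ (finrank QB W - 1 + k) := by
    intro j
    have h2 : (B j).card ≤ (Nat.log 2 N + 1) ^ (finrank QB W - 1 + k) *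
        ((B j).image (fun n => j.removeNth n)).card := by
      apply Finset.card_le_mul_card_image
      intro a _
      have h3 : ((B j).filter fun n => j.removeNth n = a).card ≤
          ((Finset.Icc 1 N).filter fun n : ℕ => ((Real.log n : ℝ) : ℂ) ∈ U a).card := by
        apply Finset.card_le_card_of_injOn (fun n => n j)
        · intro n hn
          have hn1 := Finset.mem_filter.mp hn
          have hn2 := Finset.mem_filter.mp hn1.1
          refine Finset.mem_coe.mpr (Finset.mem_filter.mpr ⟨Fintype.mem_piFinset.mp hn2.1 j, ?_⟩)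
          rw [← hn1.2]
          exact hn2.2
        · intro n hn n' hn' hnn
          have hn1 := Finset.mem_filter.mp hn
          have hn2 := Finset.mem_filter.mp hn'
          have h4 : j.removeNth n = j.removeNth n' := hn1.2.trans hn2.2.symm
          rw [← Fin.insertNth_self_removeNth j n, ← Fin.insertNth_self_removeNth j n', h4]
          congr 1
      refine h3.trans ?_
      have := hUf a
      refine (count_log (U a) (Submodule.mem_sup_left h1) N).trans ?_
      apply Nat.pow_le_pow_right (Nat.succ_pos _)
      have := hUr a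
      omega
    have h4 : ((B j).image (fun n => j.removeNth n)).card ≤ N ^ k := by
      have h5 : (B j).image (fun n => j.removeNth n) ⊆
          Fintype.piFinset fun _ : Fin k => Finset.Icc 1 N := by
        intro a ha
        obtain ⟨n, hn, rfl⟩ := Finset.mem_image.mp ha
        rw [Fintype.mem_piFinset]
        intro i
        exact Fintype.mem_piFinset.mp (Finset.mem_filter.mp hn).1 _
      refine (Finset.card_le_card h5).trans ?_
      rw [Fintype.card_piFinset]
      simp
    calc (B j).card ≤ _ := h2
      _ ≤ (Nat.log 2 N + 1) ^ (finrank QB W - 1 + k) * N ^ k := Nat.mul_le_mul_left _ h4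
      _ = _ := Nat.mul_comm _ _
  have hsub : (P.filter fun n => ¬ LinearIndependent QB (fun i => W.mkQ (lg (n i)))) ⊆
      Finset.univ.biUnion B := by
    intro n hn
    obtain ⟨hnP, hn2⟩ := Finset.mem_filter.mp hn
    rw [linearIndependent_iff_notMem_span] at hn2
    push Not at hn2
    obtain ⟨j, hj⟩ := hn2
    refine Finset.mem_biUnion.mpr ⟨j, Finset.mem_univ _, Finset.mem_filter.mpr ⟨hnP, ?_⟩⟩
    have h2 : (fun i => W.mkQ (lg (n i))) '' (Set.univ \ {j}) ⊆
        W.mkQ '' (Set.range (lg ∘ j.removeNth n)) := by
      rintro _ ⟨i, hi, rfl⟩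
      have hij : i ≠ j := hi.2
      obtain ⟨i', rfl⟩ := Fin.exists_succAbove_eq hij
      exact ⟨_, ⟨i', rfl⟩, rfl⟩
    have h3 := Submodule.span_mono h2 hj
    rw [Submodule.span_image] at h3
    obtain ⟨y, hy, hyj⟩ := h3
    have h4 : lg (n j) - y ∈ W := by
      apply (Submodule.Quotient.mk_eq_zero W).mp
      change W.mkQ (lg (n j) - y) = 0
      rw [map_sub, hyj, sub_self]
    have h5 : lg (n j) = (lg (n j) - y) + y := by ring
    rw [h5]
    exact Submodule.add_mem_sup h4 hy
  refine (Finset.card_le_card hsub).trans (Finset.card_biUnion_le.trans ?_)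
  calc ∑ j, (B j).card ≤ ∑ _j : Fin (k + 1), N ^ k * (Nat.log 2 N + 1) ^ (finrank QB W - 1 + k) :=
        Finset.sum_le_sum fun j _ => hB j
    _ = _ := by simp

end Pool.Agent.K6.H68.TR
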