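import Pool.Agent.K6.H68.TR.LinAlg
import Pool.Agent.W254.HP.Rel
import Pool.Agent.W254.HP.Opt

/-!
# Linear forms in logarithms with coefficients in a finite dimensional space, modulo logarithms

Let `V` be a finite dimensional space of complex numbers over the field `QB` of algebraic numbers which
contains `1`. The vectors `z` of elements of `Lt` (linear forms in `1` and logarithms of algebraic
numbers) with `∑ x_a z_a ∈ Z`, for a basis `x` of `V` and a finite dimensional `Z`, form a finite
dimensional space by the hyperplane theorem (starting files, `Pool.Agent.W254.HP`). The coordinates with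
nonzero index of these vectors span a finite dimensional space `W`: a combination `∑ v_i y_i` with
`v_i ∈ V` not all algebraic and `y_i ∈ Lt` independent modulo `W` is not in `Lt + Z`.
-/

set_option autoImplicit false

namespace Pool.Agent.K6.H68.TR

open Module Finset
open Pool.Agent.H301R2.SSE (QB mem_QB Lt Lt_rep Lt_mul Lt_alg Lt_log Lt_one)
open Pool.Agent.W254.HP (hyperplane' opt_indep)

/-- the relations with coefficients `x` between elements of `Lt`, modulo `Z` -/
noncomputable def rel {r : ℕ} (x : Fin (r + 1) → ℂ) (Z : Submodule QB ℂ) :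
    Submodule QB (Fin (r + 1) → ℂ) where
  carrier := {z | (∀ a, z a ∈ Lt) ∧ ∑ a, x a * z a ∈ Z}
  add_mem' := by
    rintro z w ⟨h1, h2⟩ ⟨h3, h4⟩
    refine ⟨fun a => Lt.add_mem (h1 a) (h3 a), ?_⟩
    have h5 : ∑ a, x a * (z + w) a = ∑ a, x a * z a + ∑ a, x a * w a := by
      rw [← Finset.sum_add_distrib]
      exact Finset.sum_congr rfl fun a _ => by rw [Pi.add_apply, mul_add]
    rw [h5]
    exact Z.add_mem h2 h4
  zero_mem' := by
    refine ⟨fun a => Lt.zero_mem, ?_⟩
    have h5 : ∑ a, x a * (0 : Fin (r + 1) → ℂ) a = 0 :=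
      Finset.sum_eq_zero fun a _ => by rw [Pi.zero_apply, mul_zero]
    rw [h5]
    exact Z.zero_mem
  smul_mem' := by
    rintro c z ⟨h1, h2⟩
    refine ⟨fun a => Lt.smul_mem c (h1 a), ?_⟩
    have h5 : ∑ a, x a * (c • z) a = c • ∑ a, x a * z a := by
      rw [Finset.smul_sum]
      exact Finset.sum_congr rfl fun a _ => by rw [Pi.smul_apply, mul_smul_comm]
    rw [h5]
    exact Z.smul_mem c h2

/-- the sum of a relation, as an element of `Z` -/
noncomputable def relMap {r : ℕ} (x : Fin (r + 1) → ℂ) (Z : Submodule QB ℂ) :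
    rel x Z →ₗ[QB] Z where
  toFun z := ⟨∑ a, x a * (z : Fin (r + 1) → ℂ) a, z.2.2⟩
  map_add' := by
    intro z w
    apply Subtype.ext
    change ∑ a, x a * ((z : Fin (r + 1) → ℂ) a + (w : Fin (r + 1) → ℂ) a) = _ + _
    rw [← Finset.sum_add_distrib]
    exact Finset.sum_congr rfl fun a _ => by rw [mul_add]
  map_smul' := by
    intro c z
    apply Subtype.ext
    change ∑ a, x a * (c • (z : Fin (r + 1) → ℂ) a) = c • ∑ a, x a * (z : Fin (r + 1) → ℂ) a
    rw [Finset.smul_sum]
    exact Finset.sum_congr rfl fun a _ => by rw [mul_smul_comm]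

/-- The space of relations is finite dimensional. -/
theorem rel_finite {r : ℕ} (x : Fin (r + 1) → ℂ) (hx : LinearIndependent QB x)
    (Z : Submodule QB ℂ) [FiniteDimensional QB Z] :
    Module.Finite QB (rel x Z) ∧ finrank QB (rel x Z) ≤ (r + 1) * r + finrank QB Z := by
  apply finite_of_families (rel x Z) (relMap x Z)
  intro κ _ a ha haS
  have h1 := hyperplane' (κ := κ) (r + 1) x (fun i j => a j i) hx
    (fun i j => (haS j).1.1 i)
    (fun j => congrArg (fun z : Z => (z : ℂ)) (haS j).2)
    ha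
  rwa [Nat.add_sub_cancel] at h1

/-- Membership in the algebraic numbers. -/
theorem mem_span_one {z : ℂ} : z ∈ Submodule.span QB {(1 : ℂ)} ↔ IsAlgebraic ℚ z := by
  rw [Submodule.mem_span_singleton]
  constructor
  · rintro ⟨a, rfl⟩
    rw [Algebra.smul_def, mul_one]
    exact mem_QB.mp a.2
  · intro h
    exact ⟨⟨z, mem_QB.mpr h⟩, by rw [Algebra.smul_def, mul_one]; rfl⟩

/-- **The kernel lemma.** `V` is a finite dimensional space of complex numbers which contains `1` and
a transcendental linear form in logarithms `t`, `Z` is a finite dimensional space. If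
`∑ v_i y_i ∈ Lt + V + Z` with `v_i ∈ V`, `y_i ∈ Lt`, then the coordinates of the `v_i` outside `1` give
elements `∑ c_i y_i` of a finite dimensional space `W`, which does not depend on the `v_i`, `y_i`. -/
theorem kernel (V : Submodule QB ℂ) [FiniteDimensional QB V] (h1 : (1 : ℂ) ∈ V) {t : ℂ}
    (ht : t ∈ V) (htL : t ∈ Lt) (htt : Transcendental ℚ t) (Z : Submodule QB ℂ)
    [FiniteDimensional QB Z] :
    ∃ W : Submodule QB ℂ, FiniteDimensional QB W ∧ (1 : ℂ) ∈ W ∧
      finrank QB W ≤ 1 + (finrank QB V - 1) *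
        (finrank QB V * (finrank QB V - 1) + finrank QB Z - 1) ∧
      ∀ (κ : Type) [Fintype κ] (v y : κ → ℂ), (∀ i, v i ∈ V) → (∀ i, y i ∈ Lt) →
        (∃ β ∈ Lt, ∃ z ∈ V, ∑ i, v i * y i + z - β ∈ Z) →
        ∃ (r : ℕ) (c : κ → Fin r → QB), (∀ a, ∑ i, (c i a : ℂ) * y i ∈ W) ∧
          ∀ i, (∀ a, c i a = 0) → IsAlgebraic ℚ (v i) := by
  classical
  obtain ⟨r, x, hr, hx, hx0, hV⟩ := exists_basis V h1 (one_ne_zero (α := ℂ))
  obtain ⟨c, hc⟩ := hV t ht
  -- the trivial relation
  let ρ : Fin (r + 1) → ℂ := fun a => (c a : ℂ) - if a = 0 then t else 0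
  have hρ0 : ρ ≠ 0 := by
    intro h
    apply htt
    have h2 := congrFun h 0
    simp only [ρ, if_pos, Pi.zero_apply] at h2
    rw [sub_eq_zero] at h2
    rw [← h2]
    exact mem_QB.mp (c 0).2
  have hρ1 : ∀ a, a ≠ 0 → ρ a ∈ Submodule.span QB {(1 : ℂ)} := by
    intro a ha
    rw [mem_span_one]
    simp only [ρ, if_neg ha, sub_zero]
    exact mem_QB.mp (c a).2
  have hρR : ρ ∈ rel x Z := by
    refine ⟨fun a => ?_, ?_⟩
    · by_cases ha : a = 0
      · simp only [ρ, if_pos ha]
        exact Lt.sub_mem (Lt_alg (mem_QB.mp (c a).2)) htL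
      · simp only [ρ, if_neg ha, sub_zero]
        exact Lt_alg (mem_QB.mp (c a).2)
    · have h2 : ∑ a, x a * ρ a = 0 := by
        simp only [ρ, mul_sub, Finset.sum_sub_distrib, mul_ite, mul_zero]
        rw [Finset.sum_ite_eq' Finset.univ (0 : Fin (r + 1)) (fun a => x a * t),
          if_pos (Finset.mem_univ _), hx0, one_mul, sub_eq_zero]
        rw [hc]
        exact Finset.sum_congr rfl fun a _ => by rw [Algebra.smul_def, mul_comm]; rfl
      rw [h2]
      exact Z.zero_mem
  obtain ⟨hfin, hle⟩ := rel_finite x hx Z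
  obtain ⟨W, hWf, hW1, hWr, hW⟩ := exists_W (1 : ℂ) r ((r + 1) * r + finrank QB Z) (rel x Z) hle ρ
    hρR hρ0 hρ1
  refine ⟨W, hWf, hW1, by rw [hr, Nat.add_sub_cancel]; exact hWr, ?_⟩
  rintro κ _ v y hv hy ⟨β, hβ, z', hz', hβZ⟩
  choose d hd using fun i => hV (v i) (hv i)
  obtain ⟨e, he⟩ := hV z' hz'
  let z : Fin (r + 1) → ℂ := fun a => ∑ i, (d i a : ℂ) * y i + e a - if a = 0 then β else 0
  have hz : z ∈ rel x Z := by
    refine ⟨fun a => ?_, ?_⟩
    · refine Lt.sub_mem (Lt.add_mem (Lt.sum_mem fun i _ => Lt_mul (mem_QB.mp (d i a).2) (hy i))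
        (Lt_alg (mem_QB.mp (e a).2))) ?_
      split_ifs
      · exact hβ
      · exact Lt.zero_mem
    · have h2 : ∑ a, x a * z a = ∑ i, v i * y i + z' - β := by
        simp only [z, mul_sub, mul_add, Finset.sum_sub_distrib, Finset.sum_add_distrib, mul_ite,
          mul_zero]
        rw [Finset.sum_ite_eq' Finset.univ (0 : Fin (r + 1)) (fun a => x a * β),
          if_pos (Finset.mem_univ _), hx0, one_mul]
        congr 1
        congr 1
        · simp only [Finset.mul_sum]
          rw [Finset.sum_comm]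
          refine Finset.sum_congr rfl fun i _ => ?_
          rw [hd i, Finset.sum_mul]
          refine Finset.sum_congr rfl fun a _ => ?_
          rw [Algebra.smul_def]
          change x a * ((d i a : ℂ) * y i) = (d i a : ℂ) * x a * y i
          ring
        · rw [he]
          exact Finset.sum_congr rfl fun a _ => by rw [Algebra.smul_def, mul_comm]; rfl
      rw [h2]
      exact hβZ
  refine ⟨r, fun i a => d i a.succ, fun a => ?_, fun i hi => ?_⟩
  · have h2 := hW z hz a.succ (Fin.succ_ne_zero a)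
    simp only [z, if_neg (Fin.succ_ne_zero a), sub_zero] at h2
    have h3 : (e a.succ : ℂ) ∈ W := by
      have h4 := W.smul_mem (e a.succ) hW1
      rwa [Algebra.smul_def, mul_one] at h4
    have h5 := W.sub_mem h2 h3
    rwa [add_sub_cancel_right] at h5
  · rw [hd i, Fin.sum_univ_succ]
    have h3 : ∑ a : Fin r, d i a.succ • x a.succ = 0 :=
      Finset.sum_eq_zero fun a _ => by
        have h4 : d i a.succ = 0 := hi a
        rw [h4, zero_smul]
    rw [h3, add_zero, hx0, Algebra.smul_def, mul_one]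
    exact mem_QB.mp (d i 0).2

/-- If the `y_i` are linearly independent modulo `W`, the conclusion of the kernel lemma is that all
`v_i` are algebraic. -/
theorem all_alg {W : Submodule QB ℂ} {κ : Type} [Fintype κ] {v y : κ → ℂ}
    (hli : LinearIndependent QB (fun i => W.mkQ (y i)))
    (h : ∃ (r : ℕ) (c : κ → Fin r → QB), (∀ a, ∑ i, (c i a : ℂ) * y i ∈ W) ∧
      ∀ i, (∀ a, c i a = 0) → IsAlgebraic ℚ (v i)) : ∀ i, IsAlgebraic ℚ (v i) := by
  obtain ⟨r, c, h1, h2⟩ := h
  intro i
  apply h2 i
  intro a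
  refine Fintype.linearIndependent_iff.mp hli (fun i => c i a) ?_ i
  have h3 : W.mkQ (∑ i, (c i a : ℂ) * y i) = 0 := (Submodule.Quotient.mk_eq_zero W).mpr (h1 a)
  rw [← h3, map_sum]
  exact Finset.sum_congr rfl fun i _ => by rw [← map_smul]; rfl

end Pool.Agent.K6.H68.TR
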