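import Mathlib

/-!
# Linear algebra for exceptional sets of logarithms

Auxiliary facts on vector spaces, used for `Pool.Agent.Results.MP_ee2255_nt.ProductsOfPowers` and
related hand-ins.
-/

set_option autoImplicit false

namespace Pool.Agent.K6.H68.TR

open Module Finset

variable {k : Type} [Field k]

/-- A space is finite dimensional if the kernel of a map to a finite dimensional space is. -/
theorem finite_of_ker {M Z : Type} [AddCommGroup M] [Module k M] [AddCommGroup Z] [Module k Z]
    [FiniteDimensional k Z] (φ : M →ₗ[k] Z) (n : ℕ)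
    (H : ∀ s : Finset (LinearMap.ker φ),
      (LinearIndependent k fun i : s => (i : LinearMap.ker φ)) → s.card ≤ n) :
    Module.Finite k M ∧ finrank k M ≤ n + finrank k Z := by
  have h1 : Module.rank k (LinearMap.ker φ) ≤ n := rank_le H
  have : Module.Finite k (LinearMap.ker φ) := by
    rw [← Module.rank_lt_aleph0_iff]
    exact lt_of_le_of_lt h1 (Cardinal.natCast_lt_aleph0)
  have hfin : Module.Finite k M := by
    have h2 := LinearMap.rank_range_add_rank_ker φ
    have h3 : Module.rank k (LinearMap.range φ) < Cardinal.aleph0 :=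
      Module.rank_lt_aleph0_iff.mpr inferInstance
    have h4 : Module.rank k (LinearMap.ker φ) < Cardinal.aleph0 :=
      Module.rank_lt_aleph0_iff.mpr inferInstance
    have h5 : Module.rank k (LinearMap.range φ) < Cardinal.aleph0 := h3
    have h6 : Module.rank k (LinearMap.range φ) + Module.rank k (LinearMap.ker φ)
        < Cardinal.aleph0 := Cardinal.add_lt_aleph0 h5 h4
    rw [← Module.rank_lt_aleph0_iff, ← h2]
    exact h6
  refine ⟨hfin, ?_⟩
  have h2 := LinearMap.finrank_range_add_finrank_ker φ
  have h3 : finrank k (LinearMap.range φ) ≤ finrank k Z := Submodule.finrank_le _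
  have h4 : finrank k (LinearMap.ker φ) ≤ n := finrank_le_of_rank_le h1
  omega

/-- The same for a subspace `S` of a space `M`, with a hypothesis on families of elements of `M`. -/
theorem finite_of_families {M Z : Type} [AddCommGroup M] [Module k M] [AddCommGroup Z] [Module k Z]
    [FiniteDimensional k Z] (S : Submodule k M) (φ : S →ₗ[k] Z) (n : ℕ)
    (H : ∀ (κ : Type) [Fintype κ] (a : κ → M), LinearIndependent k a →
      (∀ j, ∃ h : a j ∈ S, φ ⟨a j, h⟩ = 0) → Fintype.card κ ≤ n) :
    Module.Finite k S ∧ finrank k S ≤ n + finrank k Z := by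
  apply finite_of_ker φ
  intro s hs
  have h1 : LinearIndependent k (fun i : s => ((i.1 : S) : M)) :=
    (hs.map' (LinearMap.ker φ).subtype (Submodule.ker_subtype _)).map'
      S.subtype (Submodule.ker_subtype _)
  have h2 := H s (fun i : s => ((i.1 : S) : M)) h1 (fun i => ⟨(i.1 : S).2, LinearMap.mem_ker.mp i.1.2⟩)
  rwa [Fintype.card_coe] at h2

theorem finrank_aux (C : Type*) [AddCommGroup C] [Module k C] [Module.Finite k C] (r : ℕ) :
    finrank k (k × (Fin r → C)) = 1 + r * finrank k C := by
  rw [Module.finrank_prod, Module.finrank_self, Module.finrank_pi_fintype]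
  simp

/-- The nonconstant coordinates of a finite dimensional space of vectors which contains a vector with
constant nonzero-index coordinates. -/
theorem exists_W {A : Type*} [AddCommGroup A] [Module k A] (e : A) (r N : ℕ)
    (R : Submodule k (Fin (r + 1) → A)) [FiniteDimensional k R] (hN : finrank k R ≤ N)
    (ρ : Fin (r + 1) → A) (hρR : ρ ∈ R) (hρ : ρ ≠ 0)
    (hρ1 : ∀ a, a ≠ 0 → ρ a ∈ Submodule.span k {e}) :
    ∃ W : Submodule k A, FiniteDimensional k W ∧ e ∈ W ∧ finrank k W ≤ 1 + r * (N - 1) ∧
      ∀ z ∈ R, ∀ a, a ≠ 0 → z a ∈ W := by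
  classical
  let ρ' : R := ⟨ρ, hρR⟩
  have hρ' : ρ' ≠ 0 := fun h => hρ (congrArg Subtype.val h)
  obtain ⟨C, hC⟩ := Submodule.exists_isCompl (Submodule.span k {ρ'})
  have hCf : finrank k C + 1 = finrank k R := by
    have h1 := Submodule.finrank_add_eq_of_isCompl hC
    rw [finrank_span_singleton hρ'] at h1
    omega
  let Φ : (k × (Fin r → C)) →ₗ[k] A :=
    LinearMap.coprod (LinearMap.toSpanSingleton k A e)
      (∑ a : Fin r, (LinearMap.proj a.succ) ∘ₗ R.subtype ∘ₗ C.subtype ∘ₗ
        (LinearMap.proj a : (Fin r → C) →ₗ[k] C))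
  have hΦ : ∀ t c, Φ (t, c) = t • e + ∑ a : Fin r, ((c a : C) : R).1 a.succ := by
    intro t c
    simp [Φ, LinearMap.sum_apply]
  refine ⟨LinearMap.range Φ, inferInstance, ⟨(1, 0), by rw [hΦ]; simp⟩, ?_, ?_⟩
  · have h1 := LinearMap.finrank_range_le Φ
    have h2 : finrank k (k × (Fin r → C)) = 1 + r * finrank k C := finrank_aux C r
    rw [h2] at h1
    refine h1.trans ?_
    apply Nat.add_le_add_left
    apply Nat.mul_le_mul_left
    omega
  · intro z hz a ha
    obtain ⟨b, rfl⟩ := Fin.exists_succ_eq.mpr ha
    have h1 : (⟨z, hz⟩ : R) ∈ Submodule.span k {ρ'} ⊔ C := by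
      rw [hC.sup_eq_top]; trivial
    obtain ⟨y, hy, c, hc, hyc⟩ := Submodule.mem_sup.mp h1
    obtain ⟨t, rfl⟩ := Submodule.mem_span_singleton.mp hy
    obtain ⟨s, hs⟩ := Submodule.mem_span_singleton.mp (hρ1 b.succ (Fin.succ_ne_zero b))
    refine ⟨(t * s, Pi.single b ⟨c, hc⟩), ?_⟩
    rw [hΦ]
    have h2 : ∑ a : Fin r, (((Pi.single b (⟨c, hc⟩ : C) : Fin r → C) a : C) : R).1 a.succ =
        (c : R).1 b.succ := by
      rw [Finset.sum_eq_single b]
      · simp
      · intro a _ hab
        rw [Pi.single_eq_of_ne hab]
        simp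
      · intro h; exact absurd (Finset.mem_univ _) h
    rw [h2]
    have h3 : z b.succ = (t • ρ' + c : R).1 b.succ := by rw [hyc]
    rw [h3]
    change _ = t • ρ b.succ + (c : R).1 b.succ
    rw [← hs, smul_smul]

/-- Exceptional set: a family which is linearly independent together with `e` is linearly
independent modulo a finite dimensional space `W` containing `e`, outside a finite set of
cardinality less than the dimension of `W`. -/
theorem exists_E {A : Type*} [AddCommGroup A] [Module k A] {ι : Type*} (e : A) (u : ι → A)
    (hu : LinearIndependent k (fun o : Option ι => o.elim e u)) (W : Submodule k A)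
    [FiniteDimensional k W] (h1 : e ∈ W) :
    ∃ E : Finset ι, E.card + 1 ≤ finrank k W ∧
      LinearIndependent k (fun i : {i // i ∉ E} => W.mkQ (u i)) := by
  classical
  obtain ⟨s, -, -, hs3, hs⟩ := exists_linearIndepOn_extension (K := k) (v := fun i => W.mkQ (u i))
    (linearIndepOn_empty k _) (Set.empty_subset (Set.univ : Set ι))
  have hrep : ∀ i, ∃ w ∈ W, u i - w ∈ Submodule.span k (u '' s) := by
    intro i
    have h2 : W.mkQ (u i) ∈ Submodule.span k ((fun i => W.mkQ (u i)) '' s) :=
      hs3 ⟨i, Set.mem_univ _, rfl⟩
    have h3 : (fun i => W.mkQ (u i)) '' s = W.mkQ '' (u '' s) := by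
      rw [Set.image_image]
    rw [h3, Submodule.span_image] at h2
    obtain ⟨y, hy, hyu⟩ := h2
    refine ⟨u i - y, ?_, by simpa using hy⟩
    have h4 : W.mkQ (u i - y) = 0 := by rw [map_sub, hyu, sub_self]
    exact (Submodule.Quotient.mk_eq_zero W).mp h4
  choose w hwW hw using hrep
  -- the family `(e, w i)`, `i ∉ s`, is linearly independent
  let S : Submodule k A := Submodule.span k (u '' s)
  have hdisj : Disjoint (Submodule.span k ((fun o : Option ι => o.elim e u) '' {o | ∀ i ∈ s, o ≠ some i}))
      S := by
    have h2 : S = Submodule.span k ((fun o : Option ι => o.elim e u) '' (some '' s)) := by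
      rw [Set.image_image]
      rfl
    rw [h2]
    apply hu.disjoint_span_image
    rw [Set.disjoint_left]
    rintro o ho ⟨i, hi, rfl⟩
    exact ho i hi rfl
  have hind : LinearIndependent k (fun o : Option {i // i ∉ s} => S.mkQ (o.elim e (fun i => u i))) := by
    let g : Option {i // i ∉ s} → Option ι := Option.map Subtype.val
    have hg : Function.Injective g := Option.map_injective Subtype.val_injective
    have h2 : LinearIndependent k (fun o : Option {i // i ∉ s} => (o.elim e (fun i => u i) : A)) := by
      have h3 := hu.comp g hg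
      convert h3 using 1
      funext o
      cases o <;> rfl
    have h4 := h2.map (f := S.mkQ) (by
      rw [Submodule.ker_mkQ]
      refine hdisj.mono_left (Submodule.span_mono ?_)
      rintro _ ⟨o, rfl⟩
      refine ⟨g o, ?_, ?_⟩
      · intro i hi h5
        cases o with
        | none => simp [g] at h5
        | some j =>
          simp only [g, Option.map_some, Option.some.injEq] at h5
          exact j.2 (h5 ▸ hi)
      · cases o <;> rfl)
    exact h4
  have hind2 : LinearIndependent k
      (fun o : Option {i // i ∉ s} => (⟨o.elim e (fun i => w i), by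
        cases o with
        | none => exact h1
        | some i => exact hwW i⟩ : W)) := by
    have h2 : LinearIndependent k
      (fun o : Option {i // i ∉ s} => (o.elim e (fun i => w i) : A)) := by
      apply LinearIndependent.of_comp S.mkQ
      have h5 : S.mkQ ∘ (fun o : Option {i // i ∉ s} => (o.elim e (fun i => w i) : A)) =
          (fun o : Option {i // i ∉ s} => S.mkQ (o.elim e (fun i => u i))) := by
        funext o
        cases o with
        | none => rfl
        | some i =>
          simp only [Function.comp_apply, Option.elim_some]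
          have h3 : S.mkQ (u i - w i) = 0 := (Submodule.Quotient.mk_eq_zero S).mpr (hw i)
          rw [map_sub, sub_eq_zero] at h3
          exact h3.symm
      rw [h5]
      exact hind
    exact LinearIndependent.of_comp W.subtype h2
  have hfinO : Finite (Option {i // i ∉ s}) := hind2.finite
  have hfin : Finite {i // i ∉ s} := Finite.of_injective some (Option.some_injective _)
  have : Fintype {i // i ∉ s} := Fintype.ofFinite _
  let E : Finset ι := Finset.univ.map (Function.Embedding.subtype (fun i => i ∉ s))
  have hE : ∀ i, i ∉ E ↔ i ∈ s := by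
    intro i
    simp [E]
  refine ⟨E, ?_, ?_⟩
  · have h2 := hind2.fintype_card_le_finrank
    rw [Fintype.card_option] at h2
    simpa [E] using h2
  · exact hs.comp (fun i : {i // i ∉ E} => (⟨i.1, (hE i).mp i.2⟩ : s)) (by
      intro a b hab
      exact Subtype.ext (congrArg (fun z : s => (z : ι)) hab))

/-- A finite dimensional space has a basis whose first element is a given nonzero vector. -/
theorem exists_basis {A : Type*} [AddCommGroup A] [Module k A] (V : Submodule k A)
    [FiniteDimensional k V] {e : A} (h1 : e ∈ V) (he : e ≠ 0) :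
    ∃ (r : ℕ) (x : Fin (r + 1) → A), finrank k V = r + 1 ∧ LinearIndependent k x ∧ x 0 = e ∧
      ∀ v ∈ V, ∃ c : Fin (r + 1) → k, v = ∑ a, c a • x a := by
  classical
  let e' : V := ⟨e, h1⟩
  have he' : e' ≠ 0 := fun h => he (congrArg Subtype.val h)
  obtain ⟨C, hC⟩ := Submodule.exists_isCompl (Submodule.span k {e'})
  have hCf : finrank k V = finrank k C + 1 := by
    have h1 := Submodule.finrank_add_eq_of_isCompl hC
    rw [finrank_span_singleton he'] at h1
    omega
  let b := Module.finBasis k C
  let y : Fin (finrank k C) → A := fun i => ((b i : C) : V)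
  have hy : LinearIndependent k y := by
    have h2 := b.linearIndependent.map' (V.subtype ∘ₗ C.subtype) (by
      rw [LinearMap.ker_eq_bot]
      exact V.injective_subtype.comp C.injective_subtype)
    exact h2
  have hyspan : Submodule.span k (Set.range y) = (C.map V.subtype) := by
    have h2 : y = (V.subtype ∘ₗ C.subtype) ∘ b := rfl
    rw [h2, Set.range_comp, ← Submodule.map_span, b.span_eq, Submodule.map_top,
      LinearMap.range_comp, Submodule.range_subtype]
  refine ⟨finrank k C, Fin.cons e y, hCf, ?_, rfl, ?_⟩
  · rw [linearIndependent_finCons]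
    refine ⟨hy, ?_⟩
    rw [hyspan]
    rintro ⟨c, hc, hce⟩
    have h2 : c = e' := Subtype.ext hce
    rw [h2] at hc
    have h3 : e' ∈ (Submodule.span k {e'}) ⊓ C := ⟨Submodule.mem_span_singleton_self _, hc⟩
    rw [hC.inf_eq_bot, Submodule.mem_bot] at h3
    exact he' h3
  · intro v hv
    have h2 : (⟨v, hv⟩ : V) ∈ Submodule.span k {e'} ⊔ C := by rw [hC.sup_eq_top]; trivial
    obtain ⟨y', hy', c, hc, hyc⟩ := Submodule.mem_sup.mp h2
    obtain ⟨t, rfl⟩ := Submodule.mem_span_singleton.mp hy'
    refine ⟨Fin.cons t (fun i => b.repr ⟨c, hc⟩ i), ?_⟩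
    rw [Fin.sum_univ_succ]
    simp only [Fin.cons_zero, Fin.cons_succ]
    have h3 : v = t • e + (c : A) := by
      have := congrArg (fun z : V => (z : A)) hyc
      simpa using this.symm
    have h4 : (c : A) = ∑ i, (b.repr ⟨c, hc⟩ i) • y i := by
      have h5 := b.sum_repr ⟨c, hc⟩
      have h6 := congrArg (fun z : C => ((z : V) : A)) h5
      simp only [Submodule.coe_sum, Submodule.coe_smul] at h6
      exact h6.symm
    rw [h3, h4]

/-- Rational combinations: a family of rational combinations of a linearly independent family over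
a larger field is linearly independent over the larger field as soon as it is linearly independent
over the rationals. -/
theorem baseChange [Algebra ℚ k] {A : Type*} [AddCommGroup A] [Module k A] {ι κ : Type*}
    [Fintype κ] (b : ι → A) (hb : LinearIndependent k b) (a : κ → ι →₀ ℚ)
    (ha : LinearIndependent ℚ a) :
    LinearIndependent k (fun i : κ => (a i).sum fun j q => algebraMap ℚ k q • b j) := by
  classical
  rw [Fintype.linearIndependent_iff]
  intro c hc
  let F : Finset ι := Finset.univ.biUnion (fun i => (a i).support)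
  have hF : ∀ i, (a i).support ⊆ F := fun i =>
    Finset.subset_biUnion_of_mem (fun i => (a i).support) (Finset.mem_univ i)
  have h1 : ∀ i, ((a i).sum fun j q => algebraMap ℚ k q • b j) =
      ∑ j ∈ F, algebraMap ℚ k (a i j) • b j := by
    intro i
    rw [Finsupp.sum_of_support_subset _ (hF i)]
    intro j _
    rw [map_zero, zero_smul]
  have h2 : ∑ j ∈ F, (∑ i, c i * algebraMap ℚ k (a i j)) • b j = 0 := by
    rw [← hc]
    simp only [h1, Finset.smul_sum, Finset.sum_smul, smul_smul]
    rw [Finset.sum_comm]
  have h3 := linearIndependent_iff'.mp hb F _ h2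
  have h4 : ∀ j, ∑ i, c i * algebraMap ℚ k (a i j) = 0 := by
    intro j
    by_cases hj : j ∈ F
    · exact h3 j hj
    · apply Finset.sum_eq_zero
      intro i _
      have : a i j = 0 := by
        by_contra h
        exact hj (hF i (Finsupp.mem_support_iff.mpr h))
      rw [this, map_zero, mul_zero]
  intro i
  rw [← Module.forall_dual_apply_eq_zero_iff ℚ (c i)]
  intro f
  have h5 : ∑ i, f (c i) • a i = 0 := by
    ext j
    have h6 := congrArg f (h4 j)
    rw [map_sum, map_zero] at h6
    rw [Finsupp.coe_finsetSum, Finset.sum_apply, Finsupp.zero_apply, ← h6]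
    apply Finset.sum_congr rfl
    intro i _
    rw [Finsupp.smul_apply, smul_eq_mul, mul_comm (c i), ← Algebra.smul_def, map_smul,
      smul_eq_mul, mul_comm]
  exact Fintype.linearIndependent_iff.mp ha _ h5 i

theorem exists_gen {M : Type*} [AddCommGroup M] [Module k M] (S : Submodule k M)
    [FiniteDimensional k S] : ∃ (n : ℕ) (b : Fin n → M), ∀ s ∈ S, ∃ c : Fin n → k,
      s = ∑ i, c i • b i := by
  let b := Module.finBasis k S
  refine ⟨_, fun i => ((b i : S) : M), fun s hs => ⟨fun i => b.repr ⟨s, hs⟩ i, ?_⟩⟩
  have h2 := congrArg (fun s : S => (s : M)) (b.sum_repr ⟨s, hs⟩)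
  simp only [Submodule.coe_sum, Submodule.coe_smul] at h2
  exact h2.symm

/-- A finite dimensional space of finitely supported functions is supported on a finite set. -/
theorem exists_support {ι : Type*} (S : Submodule k (ι →₀ k)) [FiniteDimensional k S] :
    ∃ E : Finset ι, ∀ c ∈ S, ∀ p, p ∉ E → c p = 0 := by
  classical
  obtain ⟨n, b, hb⟩ := exists_gen S
  let E' : Finset ι := Finset.univ.biUnion fun i => (b i).support
  refine ⟨E', ?_⟩
  intro c hc p hp
  obtain ⟨d, rfl⟩ := hb c hc
  rw [Finsupp.coe_finsetSum, Finset.sum_apply]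
  apply Finset.sum_eq_zero
  intro i _
  have h3 : b i p = 0 := by
    by_contra h
    exact hp (Finset.mem_biUnion.mpr ⟨i, Finset.mem_univ _, Finsupp.mem_support_iff.mpr h⟩)
  rw [Finsupp.smul_apply, h3, smul_zero]

/-- The finitely supported families whose combination of a linearly independent family lies in a
finite dimensional space are supported on a finite set. -/
theorem exists_support' {A : Type*} [AddCommGroup A] [Module k A] {ι : Type*} (u : ι → A)
    (hu : LinearIndependent k u) (W : Submodule k A) [FiniteDimensional k W] :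
    ∃ E : Finset ι, ∀ c : ι →₀ k, Finsupp.linearCombination k u c ∈ W → ∀ p, p ∉ E → c p = 0 := by
  let T : (ι →₀ k) →ₗ[k] A := Finsupp.linearCombination k u
  have hT : Function.Injective T := hu
  let S : Submodule k (ι →₀ k) := W.comap T
  have hSf : FiniteDimensional k S := by
    let f : S →ₗ[k] W := (T.comp S.subtype).codRestrict W (fun s => s.2)
    exact Module.Finite.of_injective f (fun a b hab => Subtype.ext (hT (congrArg Subtype.val hab)))
  obtain ⟨E, hE⟩ := exists_support S
  exact ⟨E, fun c hc => hE c hc⟩

end Pool.Agent.K6.H68.TR
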