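import Pool.Agent.K6.H68.TR.CountDep
import Pool.Agent.HP778.Main

/-!
# Products of powers of rational numbers with exponents in a finite dimensional space
-/

set_option autoImplicit false

namespace Pool.Agent.K6.H68.TR

open Module Finset
open Pool.Agent.H301R2.SSE (QB mem_QB Lt Lt_rep Lt_mul Lt_alg Lt_log Lt_one)
open Pool.Agent.HP778 (mem_of_exp pi_mem_Lt ofReal_transcendental)

theorem pi_tr : Transcendental ℚ ((Real.pi : ℝ) : ℂ) :=
  ofReal_transcendental Pool.Agent.H340R2.LW.transcendental_pi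

theorem rat_cpow {q : ℚ} (hq : 0 < q) (x : ℂ) :
    (q : ℂ) ^ x = Complex.exp (x * ((Real.log q : ℝ) : ℂ)) := by
  have h1 : (0 : ℝ) < q := by exact_mod_cast hq
  have h2 : (q : ℂ) = (((q : ℚ) : ℝ) : ℂ) := by push_cast; rfl
  rw [h2, Complex.cpow_def_of_ne_zero (by exact_mod_cast h1.ne'), Complex.ofReal_log h1.le, mul_comm]

theorem nat_cpow {n : ℕ} (hn : 0 < n) (x : ℂ) :
    (n : ℂ) ^ x = Complex.exp (x * ((Real.log n : ℝ) : ℂ)) := by
  have h1 := rat_cpow (q := (n : ℚ)) (by exact_mod_cast hn) x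
  simpa using h1

/-- The three conclusions, for numbers `e ^ (z + w) ∏ q_i ^ x_i` with `x_i, z ∈ V`, `w ∈ Z`. -/
theorem powers (V : Submodule QB ℂ) [FiniteDimensional QB V] (h1 : (1 : ℂ) ∈ V)
    (hπ : ((Real.pi : ℝ) : ℂ) ∈ V) (Z : Submodule QB ℂ) [FiniteDimensional QB Z] (b : ℕ)
    (hb : (finrank QB V - 1) * (finrank QB V * (finrank QB V - 1) + finrank QB Z - 1) ≤ b) :
    (∃ E : Finset ℕ, (∀ p ∈ E, p.Prime) ∧ E.card ≤ b ∧
      ∀ (k : ℕ) (q : Fin k → ℚ) (x : Fin k → ℂ) (z w : ℂ), (∀ i, 0 < q i) →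
        (∀ i, ∀ p ∈ E, padicValRat p (q i) = 0) → Indep q → (∀ i, x i ∈ V) → z ∈ V → w ∈ Z →
        (∃ y ∈ Lt, Complex.exp y = (∏ i, (q i : ℂ) ^ (x i)) * Complex.exp (z + w)) →
        ∀ i, IsAlgebraic ℚ (x i)) ∧
    (∃ E : Finset ℕ, (∀ p ∈ E, p.Prime) ∧
      ∀ (P : Finset ℕ) (x : ℕ → ℂ) (z w : ℂ), (∀ p ∈ P, p.Prime) →
        (∀ p ∈ P, x p ∈ V) → z ∈ V → w ∈ Z →
        (∃ y ∈ Lt, Complex.exp y = (∏ p ∈ P, (p : ℂ) ^ (x p)) * Complex.exp (z + w)) →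
        ∀ p ∈ P, p ∉ E → IsAlgebraic ℚ (x p)) ∧
    (∀ k N : ℕ, ∃ B : Finset (Fin (k + 1) → ℕ),
      B.card ≤ (k + 1) * N ^ k * (Nat.log 2 N + 1) ^ (b + k) ∧
      ∀ (n : Fin (k + 1) → ℕ), (∀ i, 1 ≤ n i ∧ n i ≤ N) → n ∉ B →
        ∀ (x : Fin (k + 1) → ℂ) (z w : ℂ), (∀ i, x i ∈ V) → z ∈ V → w ∈ Z →
        (∃ y ∈ Lt, Complex.exp y = (∏ i, (n i : ℂ) ^ (x i)) * Complex.exp (z + w)) →
        ∀ i, IsAlgebraic ℚ (x i)) := by
  classical
  obtain ⟨W, hWf, hW1, hWr, hW⟩ := kernel V h1 hπ pi_mem_Lt pi_tr Z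
  refine ⟨?_, ?_, ?_⟩
  · obtain ⟨E, hE1, hE2, hE3⟩ := primes W hW1
    refine ⟨E, hE1, by omega, ?_⟩
    rintro k q x z w hq hqE hi hx hz hw ⟨y, hy, he⟩
    have hprod : ∏ i, (q i : ℂ) ^ (x i) =
        Complex.exp (∑ i, x i * ((Real.log (q i) : ℝ) : ℂ)) := by
      rw [Complex.exp_sum]
      exact Finset.prod_congr rfl fun i _ => rat_cpow (hq i) _
    rw [hprod, ← Complex.exp_add] at he
    have h2 := mem_of_exp hy he.symm
    refine all_alg (hE3 k q hq hqE hi) (hW (Fin k) x (fun i => ((Real.log (q i) : ℝ) : ℂ)) hx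
      (fun i => Lt_log (exp_log_alg (hq i))) ⟨_, h2, z, hz, ?_⟩)
    have h3 : ∑ i, x i * ((Real.log (q i) : ℝ) : ℂ) + z -
        (∑ i, x i * ((Real.log (q i) : ℝ) : ℂ) + (z + w)) = -w := by ring
    rw [h3]
    exact Z.neg_mem hw
  · obtain ⟨E, hE1, hE2⟩ := primes' W
    refine ⟨E, hE1, ?_⟩
    rintro P x z w hP hx hz hw ⟨y, hy, he⟩
    have hprod : ∏ p ∈ P, (p : ℂ) ^ (x p) =
        Complex.exp (∑ p : P, x p * ((Real.log ((p : ℕ) : ℝ) : ℝ) : ℂ)) := by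
      rw [Finset.sum_coe_sort P (fun p : ℕ => x p * ((Real.log (p : ℝ) : ℝ) : ℂ)), Complex.exp_sum]
      exact Finset.prod_congr rfl fun p hp => nat_cpow (hP p hp).pos _
    rw [hprod, ← Complex.exp_add] at he
    have h2 := mem_of_exp hy he.symm
    obtain ⟨r, c, hc1, hc2⟩ := hW P (fun p => x p)
      (fun p => ((Real.log ((p : ℕ) : ℝ) : ℝ) : ℂ)) (fun p => hx p p.2)
      (fun p => Lt_log (exp_log_alg_nat (hP p p.2).pos)) ⟨_, h2, z, hz, (by
        have h3 : ∑ p : P, x p * ((Real.log ((p : ℕ) : ℝ) : ℝ) : ℂ) + z -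
          (∑ p : P, x p * ((Real.log ((p : ℕ) : ℝ) : ℝ) : ℂ) + (z + w)) = -w := by ring
        rw [h3]
        exact Z.neg_mem hw)⟩
    intro p hp hpE
    exact hc2 ⟨p, hp⟩ (fun a => hE2 P hP (fun p => c p a) (hc1 a) ⟨p, hp⟩ hpE)
  · intro k N
    refine ⟨_, (count_dep W hW1 k N).trans ?_, ?_⟩
    · rw [← mul_assoc]
      apply Nat.mul_le_mul_left
      apply Nat.pow_le_pow_right (Nat.succ_pos _)
      omega
    · rintro n hn hnB x z w hx hz hw ⟨y, hy, he⟩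
      have hli : LinearIndependent QB (fun i => W.mkQ ((Real.log (n i : ℕ) : ℝ) : ℂ)) := by
        by_contra h
        exact hnB (Finset.mem_filter.mpr ⟨Fintype.mem_piFinset.mpr fun i =>
          Finset.mem_Icc.mpr (hn i), h⟩)
      have hprod : ∏ i, (n i : ℂ) ^ (x i) =
          Complex.exp (∑ i, x i * ((Real.log (n i) : ℝ) : ℂ)) := by
        rw [Complex.exp_sum]
        exact Finset.prod_congr rfl fun i _ => nat_cpow (hn i).1 _
      rw [hprod, ← Complex.exp_add] at he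
      have h2 := mem_of_exp hy he.symm
      refine all_alg hli (hW (Fin (k + 1)) x (fun i => ((Real.log (n i) : ℝ) : ℂ)) hx
        (fun i => Lt_log (exp_log_alg_nat (hn i).1)) ⟨_, h2, z, hz, ?_⟩)
      have h3 : ∑ i, x i * ((Real.log (n i) : ℝ) : ℂ) + z -
          (∑ i, x i * ((Real.log (n i) : ℝ) : ℂ) + (z + w)) = -w := by ring
      rw [h3]
      exact Z.neg_mem hw

/-- the exponents -/
noncomputable def Ex {r : ℕ} (t : Fin r → ℂ) : Submodule QB ℂ :=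
  Submodule.span QB ({1, ((Real.pi : ℝ) : ℂ)} ∪ Set.range t)

theorem Ex_finite {r : ℕ} (t : Fin r → ℂ) : FiniteDimensional QB (Ex t) :=
  FiniteDimensional.span_of_finite QB
    (((Set.finite_singleton _).insert _).union (Set.finite_range t))

theorem Ex_finrank {r : ℕ} (t : Fin r → ℂ) : finrank QB (Ex t) ≤ r + 2 := by
  classical
  have h1 : Ex t = Submodule.span QB
      ((({1, ((Real.pi : ℝ) : ℂ)} : Finset ℂ) ∪ Finset.univ.image t : Finset ℂ) : Set ℂ) := by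
    rw [Ex, Finset.coe_union, Finset.coe_pair, Finset.coe_image, Finset.coe_univ, Set.image_univ]
  rw [h1]
  refine (finrank_span_finset_le_card _).trans ((Finset.card_union_le _ _).trans ?_)
  have h2 : (Finset.univ.image t).card ≤ r := Finset.card_image_le.trans (by simp)
  have h3 : ({1, ((Real.pi : ℝ) : ℂ)} : Finset ℂ).card ≤ 2 := Finset.card_le_two
  omega

theorem Ex_one {r : ℕ} (t : Fin r → ℂ) : (1 : ℂ) ∈ Ex t :=
  Submodule.subset_span (Or.inl (by simp))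

theorem Ex_pi {r : ℕ} (t : Fin r → ℂ) : ((Real.pi : ℝ) : ℂ) ∈ Ex t :=
  Submodule.subset_span (Or.inl (by simp))

theorem bound_mono {d r m : ℕ} (h : d ≤ r + 2) :
    (d - 1) * (d * (d - 1) + m - 1) ≤ (r + 1) * ((r + 2) * (r + 1) + m - 1) := by
  have h1 : d - 1 ≤ r + 1 := by omega
  apply Nat.mul_le_mul h1
  have h2 : d * (d - 1) ≤ (r + 2) * (r + 1) := Nat.mul_le_mul h h1
  omega

end Pool.Agent.K6.H68.TR
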