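import Pool.Agent.K6.H68.TR.Kernel
import Pool.Agent.H297R2.Density

/-!
# Logarithms of positive rational numbers modulo a finite dimensional space
-/

set_option autoImplicit false

namespace Pool.Agent.K6.H68.TR

open Module Finset
open Pool.Agent.H301R2.SSE (QB mem_QB Lt Lt_rep Lt_mul Lt_alg Lt_log Lt_one)
open Pool.Agent.W254.HP (hyperplane' opt_indep)

/-- the exponents in the factorization of a positive rational number -/
noncomputable def fac (q : ℚ) : ℕ →₀ ℚ :=
  q.num.natAbs.factorization.mapRange (Nat.cast : ℕ → ℚ) Nat.cast_zero -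
    q.den.factorization.mapRange (Nat.cast : ℕ → ℚ) Nat.cast_zero

theorem fac_apply (q : ℚ) (p : ℕ) :
    fac q p = (q.num.natAbs.factorization p : ℚ) - (q.den.factorization p : ℚ) := by
  simp [fac]

theorem fac_prime (q : ℚ) {p : ℕ} (hp : p.Prime) : fac q p = (padicValRat p q : ℤ) := by
  rw [fac_apply, Nat.factorization_def _ hp, Nat.factorization_def _ hp, padicValRat_def,
    padicValInt, Int.cast_sub, Int.cast_natCast, Int.cast_natCast]

theorem fac_not_prime (q : ℚ) {p : ℕ} (hp : ¬ p.Prime) : fac q p = 0 := by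
  rw [fac_apply, Nat.factorization_eq_zero_of_not_prime _ hp,
    Nat.factorization_eq_zero_of_not_prime _ hp]
  simp

theorem log_nat (n : ℕ) : Real.log n =
    (n.factorization.mapRange (Nat.cast : ℕ → ℚ) Nat.cast_zero).sum fun p t =>
      (t : ℝ) * Real.log p := by
  rw [Real.log_nat_eq_sum_factorization, Finsupp.sum_mapRange_index]
  · rfl
  · simp

theorem log_rat {q : ℚ} (hq : 0 < q) :
    Real.log q = (fac q).sum fun p t => (t : ℝ) * Real.log p := by
  have h1 : (q : ℝ) = (q.num.natAbs : ℝ) / (q.den : ℝ) := by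
    have h2 : (q.num.natAbs : ℝ) = (q.num : ℝ) := by
      have h3 : (q.num.natAbs : ℤ) = q.num := Int.natAbs_of_nonneg (Rat.num_pos.mpr hq).le
      rw [← Int.cast_natCast, h3]
    rw [h2]
    exact_mod_cast (Rat.num_div_den q).symm
  have h4 : (q.num.natAbs : ℝ) ≠ 0 := by
    have : q.num.natAbs ≠ 0 := Int.natAbs_ne_zero.mpr (Rat.num_pos.mpr hq).ne'
    exact_mod_cast this
  have h5 : (q.den : ℝ) ≠ 0 := by exact_mod_cast q.den_nz
  rw [h1, Real.log_div h4 h5, log_nat, log_nat]
  rw [fac, Finsupp.sum_sub_index]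
  intro a b c
  push_cast
  ring

/-- multiplicative independence of positive rational numbers -/
def Indep {k : ℕ} (q : Fin k → ℚ) : Prop := ∀ m : Fin k → ℤ, ∏ i, (q i) ^ (m i) = 1 → m = 0

theorem indep_log {k : ℕ} (q : Fin k → ℚ) (hq : ∀ i, 0 < q i) (hi : Indep q) :
    LinearIndependent ℚ (fun i => ((Real.log (q i) : ℝ) : ℂ)) := by
  have hpos : ∀ i, (0 : ℝ) < q i := fun i => by exact_mod_cast hq i
  have h0 : LinearIndependent ℤ (fun i => Real.log (q i)) := by
    rw [Fintype.linearIndependent_iff]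
    intro m hm
    have h1 : Real.log (∏ i, (q i : ℝ) ^ (m i)) = 0 := by
      rw [Real.log_prod (fun i _ => (zpow_pos (hpos i) _).ne')]
      simp only [Real.log_zpow]
      simpa [zsmul_eq_mul] using hm
    have h2 : (0 : ℝ) < ∏ i, (q i : ℝ) ^ (m i) := Finset.prod_pos (fun i _ => zpow_pos (hpos i) _)
    have h3 : (∏ i, (q i : ℝ) ^ (m i)) = 1 := by
      have := Real.exp_log h2
      rw [h1, Real.exp_zero] at this
      exact this.symm
    have h4 : (((∏ i, (q i) ^ (m i)) : ℚ) : ℝ) = 1 := by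
      push_cast
      exact h3
    have h5 := hi m (by exact_mod_cast h4)
    intro i
    rw [h5]; rfl
  have h1 : LinearIndependent ℚ (fun i => Real.log (q i)) :=
    (LinearIndependent.iff_fractionRing ℤ ℚ).mp h0
  have h2 := h1.map' (Complex.ofRealCLM.toLinearMap.restrictScalars ℚ) (by
    rw [LinearMap.ker_eq_bot]
    exact Complex.ofReal_injective)
  exact h2

theorem indep_primes : LinearIndependent ℚ (fun p : Nat.Primes => ((Real.log (p : ℕ) : ℝ) : ℂ)) := by
  rw [linearIndependent_iff_finset_linearIndependent]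
  intro s
  exact Pool.Agent.H297R2.linearIndependent_log_prime (fun i : s => ((i : Nat.Primes) : ℕ))
    (fun i => (i : Nat.Primes).2)
    (fun i j hij => Subtype.ext (Subtype.ext hij))

theorem exp_log_alg {q : ℚ} (hq : 0 < q) : IsAlgebraic ℚ (Complex.exp ((Real.log q : ℝ) : ℂ)) := by
  have h1 : (0 : ℝ) < q := by exact_mod_cast hq
  rw [← Complex.ofReal_exp, Real.exp_log h1]
  exact isAlgebraic_algebraMap q

/-- Outside a finite set of primes, multiplicatively independent rational numbers have logarithms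
which are linearly independent modulo `W`. -/
theorem primes (W : Submodule QB ℂ) [FiniteDimensional QB W] (h1 : (1 : ℂ) ∈ W) :
    ∃ E : Finset ℕ, (∀ p ∈ E, p.Prime) ∧ E.card + 1 ≤ finrank QB W ∧
      ∀ (k : ℕ) (q : Fin k → ℚ), (∀ i, 0 < q i) → (∀ i, ∀ p ∈ E, padicValRat p (q i) = 0) →
        Indep q → LinearIndependent QB (fun i => W.mkQ ((Real.log (q i) : ℝ) : ℂ)) := by
  classical
  obtain ⟨E', hE1, hE2⟩ := exists_E (1 : ℂ) (fun p : Nat.Primes => ((Real.log (p : ℕ) : ℝ) : ℂ))
    (opt_indep _ (fun p => by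
      have := exp_log_alg (q := ((p : ℕ) : ℚ)) (by exact_mod_cast p.2.pos)
      simpa using this) indep_primes) W h1
  refine ⟨E'.map (Function.Embedding.subtype _), ?_, by rwa [Finset.card_map], ?_⟩
  · intro p hp
    obtain ⟨p', -, rfl⟩ := Finset.mem_map.mp hp
    exact p'.2
  intro k q hq hqE hi
  let g : {p : Nat.Primes // p ∉ E'} → ℕ := fun p => ((p : Nat.Primes) : ℕ)
  have hg : Function.Injective g := fun a b hab => Subtype.ext (Subtype.ext hab)
  have hsupp : ∀ i, ∀ p ∈ (fac (q i)).support, ∃ p' : {p : Nat.Primes // p ∉ E'}, g p' = p := by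
    intro i p hp
    rw [Finsupp.mem_support_iff] at hp
    have hpp : p.Prime := by
      by_contra h
      exact hp (fac_not_prime _ h)
    refine ⟨⟨⟨p, hpp⟩, fun h => ?_⟩, rfl⟩
    apply hp
    rw [fac_prime _ hpp, hqE i p (Finset.mem_map.mpr ⟨⟨p, hpp⟩, h, rfl⟩)]
    simp
  let a : Fin k → {p : Nat.Primes // p ∉ E'} →₀ ℚ := fun i => (fac (q i)).comapDomain g hg.injOn
  have ha : ∀ i, (a i).sum (fun p t => algebraMap ℚ QB t • W.mkQ ((Real.log ((p : Nat.Primes) : ℕ) : ℝ) : ℂ))
      = W.mkQ ((Real.log (q i) : ℝ) : ℂ) := by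
    intro i
    have hb : Set.BijOn g (g ⁻¹' ↑(fac (q i)).support) ↑(fac (q i)).support := by
      refine ⟨fun x hx => hx, hg.injOn, fun p hp => ?_⟩
      obtain ⟨p', rfl⟩ := hsupp i p hp
      exact ⟨p', hp, rfl⟩
    have h2 := Finsupp.sum_comapDomain g (fac (q i))
      (fun p t => algebraMap ℚ QB t • W.mkQ ((Real.log (p : ℕ) : ℝ) : ℂ)) hb
    have h3 : (a i).sum (fun p t => algebraMap ℚ QB t •
        W.mkQ ((Real.log ((p : Nat.Primes) : ℕ) : ℝ) : ℂ)) = _ := h2
    rw [h3, log_rat (hq i), Finsupp.sum, Finsupp.sum, Complex.ofReal_sum, map_sum]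
    refine Finset.sum_congr rfl fun p _ => ?_
    rw [← map_smul]
    congr 1
    push_cast
    rfl
  have hali : LinearIndependent ℚ a := by
    have h2 := indep_log q hq hi
    rw [Fintype.linearIndependent_iff] at h2 ⊢
    intro c hc
    apply h2 c
    have h3 : ∑ i, c i • fac (q i) = 0 := by
      ext p
      rw [Finsupp.coe_finsetSum, Finset.sum_apply, Finsupp.zero_apply]
      by_cases hp : ∃ p' : {p : Nat.Primes // p ∉ E'}, g p' = p
      · obtain ⟨p', rfl⟩ := hp
        have h4 := DFunLike.congr_fun hc p'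
        rw [Finsupp.coe_finsetSum, Finset.sum_apply, Finsupp.zero_apply] at h4
        exact h4
      · apply Finset.sum_eq_zero
        intro i _
        rw [Finsupp.smul_apply]
        have h5 : fac (q i) p = 0 := by
          by_contra h
          exact hp (hsupp i p (Finsupp.mem_support_iff.mpr h))
        rw [h5, smul_zero]
    let Λ : (ℕ →₀ ℚ) →ₗ[ℚ] ℂ := Finsupp.lsum ℚ fun p =>
      LinearMap.toSpanSingleton ℚ ℂ ((Real.log (p : ℕ) : ℝ) : ℂ)
    have hΛ : ∀ i, Λ (fac (q i)) = ((Real.log (q i) : ℝ) : ℂ) := by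
      intro i
      rw [log_rat (hq i), Finsupp.sum, Complex.ofReal_sum]
      simp only [Λ, Finsupp.lsum_apply, Finsupp.sum, LinearMap.toSpanSingleton_apply]
      refine Finset.sum_congr rfl fun p _ => ?_
      rw [Rat.smul_def]
      push_cast
      rfl
    have h4 := congrArg Λ h3
    rw [map_sum, map_zero] at h4
    rw [← h4]
    refine Finset.sum_congr rfl fun i _ => ?_
    rw [map_smul, hΛ]
  have h5 := baseChange (k := QB) (fun p : {p : Nat.Primes // p ∉ E'} =>
    W.mkQ ((Real.log ((p : Nat.Primes) : ℕ) : ℝ) : ℂ)) hE2 a hali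
  simp only [ha] at h5
  exact h5

theorem exp_log_alg_nat {n : ℕ} (hn : 0 < n) :
    IsAlgebraic ℚ (Complex.exp ((Real.log (n : ℝ) : ℝ) : ℂ)) := by
  have h1 : (0 : ℝ) < n := by exact_mod_cast hn
  rw [← Complex.ofReal_exp, Real.exp_log h1]
  exact isAlgebraic_natCast n

theorem indep_primes_QB :
    LinearIndependent QB (fun p : Nat.Primes => ((Real.log (p : ℕ) : ℝ) : ℂ)) :=
  (opt_indep _ (fun p => exp_log_alg_nat p.2.pos) indep_primes).comp some
    (Option.some_injective _)

/-- There is a finite set of primes such that the combinations of the logarithms of the primes which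
are in `W` involve only the primes of this set. -/
theorem primes' (W : Submodule QB ℂ) [FiniteDimensional QB W] :
    ∃ E : Finset ℕ, (∀ p ∈ E, p.Prime) ∧ ∀ (P : Finset ℕ), (∀ p ∈ P, p.Prime) →
      ∀ c : P → QB, ∑ p : P, (c p : ℂ) * ((Real.log ((p : ℕ) : ℝ) : ℝ) : ℂ) ∈ W →
        ∀ p : P, (p : ℕ) ∉ E → c p = 0 := by
  classical
  obtain ⟨E', hE'⟩ := exists_support' _ indep_primes_QB W
  refine ⟨E'.map (Function.Embedding.subtype _), ?_, ?_⟩
  · intro p hp
    obtain ⟨p', -, rfl⟩ := Finset.mem_map.mp hp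
    exact p'.2
  intro P hP c hc p hp
  let j : P → Nat.Primes := fun p => ⟨(p : ℕ), hP p p.2⟩
  have hj : Function.Injective j := fun a b hab =>
    Subtype.ext (congrArg (fun z : Nat.Primes => (z : ℕ)) hab)
  let C : Nat.Primes →₀ QB := ∑ p : P, Finsupp.single (j p) (c p)
  have hCT : Finsupp.linearCombination QB
      (fun p : Nat.Primes => ((Real.log (p : ℕ) : ℝ) : ℂ)) C =
      ∑ p : P, (c p : ℂ) * ((Real.log ((p : ℕ) : ℝ) : ℝ) : ℂ) := by
    rw [map_sum]
    refine Finset.sum_congr rfl fun p _ => ?_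
    rw [Finsupp.linearCombination_single, Algebra.smul_def]
    rfl
  have hCp : C (j p) = c p := by
    simp only [C, Finsupp.coe_finsetSum, Finset.sum_apply]
    rw [Finset.sum_eq_single p]
    · exact Finsupp.single_eq_same
    · intro b _ hbp
      exact Finsupp.single_eq_of_ne (fun h => hbp (hj h.symm))
    · intro h; exact absurd (Finset.mem_univ _) h
  rw [← hCp]
  apply hE' C (by rw [hCT]; exact hc)
  intro h
  exact hp (Finset.mem_map.mpr ⟨j p, h, rfl⟩)

end Pool.Agent.K6.H68.TR
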